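import Pool.Agent.E8helper39.WW.Stm

/-! STEP of the recursion. -/

set_option autoImplicit false

open Module Submodule

namespace WW39

variable {V : Type} [AddCommGroup V] [Module ℝ V]

/-- a hyperplane functional of `X = N ∩ ker f`, extended through `z` -/
theorem cut_up {N : Set V} {f g : Dual ℝ V} {z : V} (hz : z ∈ N ∨ -z ∈ N) (hf : Cut N f)
    (hfz : f z ≠ 0) (hgz : g z = 0) (hg : Cut (N ∩ {e | f e = 0}) g) : Cut N g := by
  obtain ⟨⟨e, he, hge⟩, hg2⟩ := hg
  refine ⟨⟨e, he.1, hge⟩, fun x hx hgx => ?_⟩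
  have hzs : z ∈ span ℝ (N ∩ {e | g e = 0}) := by
    rcases hz with hz | hz
    · exact subset_span ⟨hz, hgz⟩
    · have : -z ∈ span ℝ (N ∩ {e | g e = 0}) := subset_span ⟨hz, by simp [hgz]⟩
      simpa using neg_mem this
  have hzN : z ∈ span ℝ N := span_mono Set.inter_subset_left hzs
  set y := x - (f x / f z) • z with hy
  have hyN : y ∈ span ℝ N := sub_mem hx (smul_mem _ _ hzN)
  have hfy : f y = 0 := by
    rw [hy, map_sub, map_smul, smul_eq_mul, div_mul_cancel₀ _ hfz, sub_self]
  have hgy : g y = 0 := by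
    rw [hy, map_sub, map_smul, hgz, hgx]; simp
  have h1 := hg2 y (hf.2 y hyN hfy) hgy
  have h2 : y ∈ span ℝ (N ∩ {e | g e = 0}) := by
    refine span_mono ?_ h1
    rintro e ⟨⟨he1, -⟩, he2⟩
    exact ⟨he1, he2⟩
  have h3 : x = y + (f x / f z) • z := by rw [hy]; abel
  rw [h3]
  exact add_mem h2 (smul_mem _ _ hzs)

/-- If a coloop `e₁` of `E'` has `g e₁ ≠ 0` for a hyperplane functional, then `g` vanishes on the
other elements. -/
theorem coloop_cut {E' : Set V} {g : Dual ℝ V} (hg : Cut E' g) {e₁ : V} (h1 : e₁ ∈ E')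
    (hc : e₁ ∉ NC E') (hg1 : g e₁ ≠ 0) : ∀ e ∈ E', e ≠ e₁ → g e = 0 := by
  intro e he hne
  by_contra hge
  apply hc
  refine ⟨h1, ?_⟩
  set x := g e • e₁ - g e₁ • e with hx
  have hxs : x ∈ span ℝ E' := sub_mem (smul_mem _ _ (subset_span h1)) (smul_mem _ _ (subset_span he))
  have hgx : g x = 0 := by
    rw [hx, map_sub, map_smul, map_smul, smul_eq_mul, smul_eq_mul, mul_comm, sub_self]
  have h2 := hg.2 x hxs hgx
  have h3 : x ∈ span ℝ (E' \ {e₁}) := by
    refine span_mono ?_ h2
    rintro a ⟨ha1, ha2⟩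
    refine ⟨ha1, ?_⟩
    rintro rfl
    exact hg1 ha2
  have h4 : e₁ = (g e)⁻¹ • (x + g e₁ • e) := by
    rw [hx, sub_add_cancel, smul_smul, inv_mul_cancel₀ hge, one_smul]
  have h5 : (g e)⁻¹ • (x + g e₁ • e) ∈ span ℝ (E' \ {e₁}) :=
    smul_mem _ _ (add_mem h3 (smul_mem _ _ (subset_span ⟨he, hne⟩)))
  rw [← h4] at h5
  exact h5

theorem exists_proj [FiniteDimensional ℝ V] {N D : Set V} {h : Dual ℝ V} {p : V}
    (hN : ∀ e ∈ N, h e = 0) (hD : ∀ e ∈ D, h e = 0) (hp : h p ≠ 0)
    (hdis : Disjoint (span ℝ N) (span ℝ D))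
    (hsp : ∀ x, h x = 0 → x ∈ span ℝ N ⊔ span ℝ D) :
    ∃ π : V →ₗ[ℝ] V, (∀ x ∈ span ℝ N, π x = x) ∧ (∀ x ∈ span ℝ D, π x = 0) ∧ π p = 0 ∧
      (∀ x, π x ∈ span ℝ N) ∧ ∀ x, h x = 0 → x - π x ∈ span ℝ D := by
  have hNk : ∀ x ∈ span ℝ N, h x = 0 := by
    intro x hx
    have : span ℝ N ≤ LinearMap.ker h := span_le.2 fun e he => hN e he
    exact this hx
  have hDk : ∀ x ∈ span ℝ D, h x = 0 := by
    intro x hx
    have : span ℝ D ≤ LinearMap.ker h := span_le.2 fun e he => hD e he
    exact this hx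
  have hd : Disjoint (span ℝ N) (span ℝ D ⊔ span ℝ {p}) := by
    rw [Submodule.disjoint_def]
    intro x hx hx2
    obtain ⟨y, hy, w, hw, rfl⟩ := mem_sup.1 hx2
    obtain ⟨c, rfl⟩ := mem_span_singleton.1 hw
    have h1 := hNk _ hx
    rw [map_add, hDk y hy, map_smul, smul_eq_mul, zero_add] at h1
    have hc : c = 0 := by
      rcases mul_eq_zero.1 h1 with h | h
      · exact h
      · exact absurd h hp
    subst hc
    rw [zero_smul, add_zero] at hx ⊢
    exact (Submodule.disjoint_def.1 hdis) y hx hy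
  have hs : span ℝ N ⊔ (span ℝ D ⊔ span ℝ {p}) = ⊤ := by
    rw [eq_top_iff]
    intro x _
    have h1 : h (x - (h x / h p) • p) = 0 := by
      rw [map_sub, map_smul, smul_eq_mul, div_mul_cancel₀ _ hp, sub_self]
    have h2 := hsp _ h1
    have h3 : x = (x - (h x / h p) • p) + (h x / h p) • p := by abel
    rw [h3, ← sup_assoc]
    exact add_mem (mem_sup_left h2) (mem_sup_right (smul_mem _ _ (mem_span_singleton_self p)))
  have hc : IsCompl (span ℝ N) (span ℝ D ⊔ span ℝ {p}) := ⟨hd, codisjoint_iff.2 hs⟩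
  have hl : ∀ x ∈ span ℝ N, (((span ℝ N).projectionOnto _ hc x : span ℝ N) : V) = x := by
    intro x hx
    have := Submodule.projectionOnto_apply_left hc ⟨x, hx⟩
    simp only at this
    rw [this]
  have hr : ∀ x ∈ span ℝ D ⊔ span ℝ {p},
      (((span ℝ N).projectionOnto _ hc x : span ℝ N) : V) = 0 := by
    intro x hx
    rw [Submodule.projectionOnto_apply_of_mem_right hc hx]; rfl
  refine ⟨(span ℝ N).subtype ∘ₗ (span ℝ N).projectionOnto _ hc, ?_, ?_, ?_, ?_, ?_⟩
  · intro x hx
    exact hl x hx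
  · intro x hx
    exact hr x (mem_sup_left hx)
  · exact hr p (mem_sup_right (mem_span_singleton_self p))
  · intro x
    exact ((span ℝ N).projectionOnto _ hc x).2
  · intro x hx
    obtain ⟨a, ha, b, hb, rfl⟩ := mem_sup.1 (hsp x hx)
    have e : ((span ℝ N).subtype ∘ₗ (span ℝ N).projectionOnto _ hc) (a + b) = a := by
      rw [map_add]
      change (((span ℝ N).projectionOnto _ hc a : span ℝ N) : V) +
        (((span ℝ N).projectionOnto _ hc b : span ℝ N) : V) = a
      rw [hl a ha, hr b (mem_sup_left hb), add_zero]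
    rw [e]
    simpa using hb


theorem t_STEP (hNC1 : S_NC1) (hNC2 : S_NC2) (hGP : S_GP) (hFIRST : S_FIRST) : S_STEP := by
  intro V _ _ _ E hEf hEs hE0 _ hNS p h q hSP hNne
  set H0 : Set V := E ∩ {e | h e = 0} with hH0
  set N : Set V := NC H0 with hN
  set D : Set V := H0 \ N with hD
  have hH0f : H0.Finite := hEf.subset Set.inter_subset_left
  have hNH : N ⊆ H0 := fun e he => he.1
  have hNf : N.Finite := hH0f.subset hNH
  obtain ⟨hdis, hDind, hNnc⟩ := hNC1 V H0 hH0f
  have hconn : Conn N := hNC2 V E H0 hEf hNS Set.inter_subset_left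
  have hNh : ∀ e ∈ N, h e = 0 := fun e he => (hNH he).2
  have hDh : ∀ e ∈ D, h e = 0 := fun e he => he.1.2
  have hp0 : h p ≠ 0 := ne_of_lt hSP.hp
  have hND : H0 = N ∪ D := by
    rw [hD, Set.union_sdiff_cancel hNH]
  have hsp : ∀ x, h x = 0 → x ∈ span ℝ N ⊔ span ℝ D := by
    intro x hx
    have h1 := hSP.cut.2 x (by rw [hEs]; trivial) hx
    rw [← span_union, ← hND]
    exact h1
  obtain ⟨π, π1, π2, π3, π4, π5⟩ := exists_proj hNh hDh hp0 hdis hsp
  -- hyperplanes of `N` give hyperplanes of `H0`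
  have hup : ∀ f : Dual ℝ V, Cut N f → (f ∘ₗ π) p = 0 ∧ Cut H0 (f ∘ₗ π) := by
    intro f hf
    refine ⟨by simp [π3], ?_, ?_⟩
    · obtain ⟨e, he, hfe⟩ := hf.1
      refine ⟨e, hNH he, ?_⟩
      rw [LinearMap.comp_apply, π1 e (subset_span he)]
      exact hfe
    · intro x hx hfx
      rw [LinearMap.comp_apply] at hfx
      have hhx : h x = 0 := by
        have : span ℝ H0 ≤ LinearMap.ker h := span_le.2 fun e he => he.2
        exact this hx
      have h1 := hf.2 (π x) (π4 x) hfx
      have h2 := π5 x hhx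
      have h3 : x = π x + (x - π x) := by abel
      rw [h3]
      refine add_mem (span_mono ?_ h1) (span_mono ?_ h2)
      · rintro e ⟨he1, he2⟩
        refine ⟨hNH he1, ?_⟩
        change f (π e) = 0
        rw [π1 e (subset_span he1)]
        exact he2
      · rintro e he
        refine ⟨he.1, ?_⟩
        change f (π e) = 0
        rw [π2 e (subset_span he), map_zero]
  have hqN : π q ∈ span ℝ N := π4 q
  have hgen : Gen N (π q) := by
    intro f hf
    obtain ⟨h1, h2⟩ := hup f hf
    exact hSP.gen _ h1 h2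
  have hNbot : span ℝ N ≠ ⊥ := by
    obtain ⟨e, he⟩ := hNne
    intro hb
    have := subset_span (R := ℝ) he
    rw [hb] at this
    exact hE0 e (hNH he).1 ((Submodule.mem_bot ℝ).1 this)
  obtain ⟨f₀, hf₀, hf₀q, hf₀K⟩ := hGP V N (π q) hNf hconn hqN hgen hNbot
  -- choose `z`
  obtain ⟨z, hzN, hf₀z⟩ : ∃ z, (z ∈ N ∨ -z ∈ N) ∧ f₀ z < 0 := by
    obtain ⟨e, he, hfe⟩ := hf₀.1
    rcases lt_or_gt_of_ne hfe with h1 | h1
    · exact ⟨e, Or.inl he, h1⟩
    · exact ⟨-e, Or.inr (by simpa using he), by simpa using h1⟩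
  let K : Dual ℝ V → Prop := fun f => ∀ x ∈ span ℝ N, InCl N (π q) x → x ≠ 0 → 0 < f x
  obtain ⟨f, hfK, hfq, hfSP⟩ := hFIRST V N z (π q) K hNf hzN hqN hgen
    (by
      intro f g a b ha hb hf hg hgq _ x hx hcl hx0
      have h1 := hf x hx hcl hx0
      have h2 := hcl g hg hgq
      simp only [LinearMap.add_apply, LinearMap.smul_apply, smul_eq_mul]
      nlinarith [mul_pos ha h1, mul_nonneg hb.le h2])
    ⟨f₀, by
      intro x hx hcl hx0
      rcases (hcl f₀ hf₀ hf₀q).lt_or_eq with h1 | h1
      · exact h1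
      · exact absurd (hf₀K x hx hcl h1.symm) hx0, hf₀, hf₀q, hf₀z⟩
  have hfcut : Cut N f := hfSP.cut
  have hfz : f z < 0 := hfSP.hp
  have hzs : z ∈ span ℝ N := by
    rcases hzN with h1 | h1
    · exact subset_span h1
    · simpa using neg_mem (subset_span (R := ℝ) h1)
  set s : ℝ := -(f (π q) / f z) with hs
  set qF : V := π q - (f (π q) / f z) • z with hqF
  set h' : Dual ℝ V := f ∘ₗ π with hh'
  set q' : V := qF + (q - π q) - p with hq'
  have hqD : q - π q ∈ span ℝ D := π5 q hSP.hq
  have hqFN : qF ∈ span ℝ N := sub_mem hqN (smul_mem _ _ hzs)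
  -- the elements off `h = 0`
  have hcl : ∀ e ∈ E, InCl N (π q) ((h e) • π e) := by
    intro e he g₀ hg₀ hg₀q
    obtain ⟨h1, h2⟩ := hup g₀ hg₀
    have h3 := hSP.st _ h1 h2 hg₀q e he
    rw [map_smul, smul_eq_mul]
    exact h3
  have hpE : ∃ p₁ ∈ E, (p₁ = p ∨ p₁ = -p) := by
    rcases hSP.mem with h1 | h1
    · exact ⟨p, h1, Or.inl rfl⟩
    · exact ⟨-p, h1, Or.inr rfl⟩
  obtain ⟨p₁, hp₁E, hp₁⟩ := hpE
  have hp₁h : h p₁ ≠ 0 := by
    rcases hp₁ with rfl | rfl
    · exact hp0
    · simpa using hp0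
  have hπp₁ : π p₁ = 0 := by
    rcases hp₁ with rfl | rfl
    · exact π3
    · simp [π3]
  -- `x - π x` for general `x`
  have π6 : ∀ x, x - π x - (h x / h p₁) • p₁ ∈ span ℝ D := by
    intro x
    have h1 : h (x - (h x / h p₁) • p₁) = 0 := by
      rw [map_sub, map_smul, smul_eq_mul, div_mul_cancel₀ _ hp₁h, sub_self]
    have h2 := π5 _ h1
    rw [map_sub, map_smul, hπp₁, smul_zero, sub_zero] at h2
    have h3 : x - π x - (h x / h p₁) • p₁ = x - (h x / h p₁) • p₁ - π x := by abel
    rw [h3]
    exact h2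
  -- classification of the elements of the new hyperplane
  have hS : ∀ e ∈ E, h' e = 0 → (e ∈ N ∧ f e = 0) ∨ e ∈ D ∨ e = p₁ := by
    intro e he hhe
    by_cases hhe0 : h e = 0
    · by_cases heN : e ∈ N
      · left
        refine ⟨heN, ?_⟩
        have : f (π e) = 0 := hhe
        rwa [π1 e (subset_span heN)] at this
      · right; left
        exact ⟨⟨he, hhe0⟩, heN⟩
    · right; right
      have h1 : π e = 0 := by
        by_contra hne
        have h2 : (h e) • π e ≠ 0 := smul_ne_zero hhe0 hne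
        have h3 := hfK _ (smul_mem _ _ (π4 e)) (hcl e he) h2
        rw [map_smul, smul_eq_mul] at h3
        have h4 : f (π e) = 0 := hhe
        rw [h4, mul_zero] at h3
        exact lt_irrefl _ h3
      by_contra hne
      have h2 := π6 e
      rw [h1, sub_zero] at h2
      have h3 : e ∈ span ℝ (insert p₁ D) := by
        have h4 : e = (e - (h e / h p₁) • p₁) + (h e / h p₁) • p₁ := by abel
        rw [h4]
        exact add_mem (span_mono (Set.subset_insert _ _) h2)
          (smul_mem _ _ (subset_span (Set.mem_insert _ _)))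
      have hAE : insert e (insert p₁ D) ⊆ E := by
        rintro a (rfl | rfl | ha)
        · exact he
        · exact hp₁E
        · exact ha.1.1
      have hNE : N ⊆ E := fun a ha => (hNH ha).1
      have hdisj : Disjoint (span ℝ (insert e (insert p₁ D))) (span ℝ N) := by
        have h5 : span ℝ (insert e (insert p₁ D)) ≤ LinearMap.ker π := by
          rw [span_le]
          rintro a (rfl | rfl | ha)
          · exact h1
          · exact hπp₁
          · exact π2 a (subset_span ha)
        rw [Submodule.disjoint_def]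
        intro x hx hxN
        have h6 : π x = 0 := h5 hx
        rw [← π1 x hxN, h6]
      rcases hNS _ hAE N hNE hdisj with h4 | h4
      · have h5 : e ∉ span ℝ (insert p₁ D) := by
          have heI : e ∉ insert p₁ D := by
            rintro (rfl | ha)
            · exact hne rfl
            · exact hhe0 ha.1.2
          have := (linearIndepOn_id_insert heI).1 h4
          exact this.2
        exact h5 h3
      · obtain ⟨a, ha⟩ := hNne
        have h5 := hNnc a ha
        have h6 : N = insert a (N \ {a}) := by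
          rw [Set.insert_sdiff_singleton, Set.insert_eq_of_mem ha]
        rw [h6] at h4
        have := ((linearIndepOn_id_insert (by simp)).1 h4).2
        exact this h5
  set E' : Set V := E ∩ {e | h' e = 0} with hE'
  have hE'h : ∀ e ∈ E', e ≠ p₁ → h e = 0 := by
    rintro e ⟨he, hhe⟩ hne
    rcases hS e he hhe with h1 | h1 | h1
    · exact hNh e h1.1
    · exact hDh e h1
    · exact absurd h1 hne
  have hp₁E' : p₁ ∈ E' := by
    refine ⟨hp₁E, ?_⟩
    change f (π p₁) = 0
    rw [hπp₁, map_zero]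
  have hDE' : D ⊆ E' := by
    intro e he
    refine ⟨he.1.1, ?_⟩
    change f (π e) = 0
    rw [π2 e (subset_span he), map_zero]
  have hXE' : N ∩ {e | f e = 0} ⊆ E' := by
    rintro e ⟨he, hfe⟩
    refine ⟨(hNH he).1, ?_⟩
    change f (π e) = 0
    rw [π1 e (subset_span he)]
    exact hfe
  have hp₁nc : p₁ ∉ NC E' := by
    rintro ⟨-, h1⟩
    have h2 : span ℝ (E' \ {p₁}) ≤ LinearMap.ker h := by
      rw [span_le]
      rintro e ⟨he, hne⟩
      exact hE'h e he hne
    exact hp₁h (h2 h1)
  have hDnc : ∀ d ∈ D, d ∉ NC E' := by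
    rintro d hd ⟨-, h1⟩
    -- apply the projection to `span D`
    have h2 : d ∈ span ℝ (insert p₁ (N ∪ (D \ {d}))) := by
      refine span_mono ?_ h1
      rintro e ⟨⟨he, hhe⟩, hne⟩
      rcases hS e he hhe with h3 | h3 | h3
      · exact Or.inr (Or.inl h3.1)
      · exact Or.inr (Or.inr ⟨h3, hne⟩)
      · exact Or.inl h3
    rw [Submodule.mem_span_insert] at h2
    obtain ⟨c, w, hw, hdw⟩ := h2
    have hhw : h w = 0 := by
      have : span ℝ (N ∪ (D \ {d})) ≤ LinearMap.ker h := by
        rw [span_le]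
        rintro e (he | he)
        · exact hNh e he
        · exact hDh e he.1
      exact this hw
    have hc : c = 0 := by
      have h3 : h d = 0 := hDh d hd
      rw [hdw, map_add, map_smul, hhw, add_zero, smul_eq_mul] at h3
      rcases mul_eq_zero.1 h3 with h4 | h4
      · exact h4
      · exact absurd h4 hp₁h
    rw [hc, zero_smul, zero_add] at hdw
    rw [span_union] at hw
    obtain ⟨a, ha, b, hb, hab⟩ := mem_sup.1 hw
    have hbD : b ∈ span ℝ D := span_mono Set.sdiff_subset hb
    have h4 : π d = 0 := π2 d (subset_span hd)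
    rw [hdw, ← hab, map_add, π1 a ha, π2 b hbD, add_zero] at h4
    rw [h4, zero_add] at hab
    have h5 : d ∈ span ℝ (D \ {d}) := by rw [hdw, ← hab]; rw [hdw, ← hab] at hb; exact hb
    have h6 : D = insert d (D \ {d}) := by
      rw [Set.insert_sdiff_singleton, Set.insert_eq_of_mem hd]
    have h7 : LinearIndepOn ℝ id (insert d (D \ {d})) := by rw [← h6]; exact hDind
    exact ((linearIndepOn_id_insert (by simp)).1 h7).2 h5
  -- products with `h e`
  have hA : ∀ e ∈ E, 0 ≤ h e * h' e := by
    intro e he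
    have h1 := hcl e he f hfcut hfq
    rw [map_smul, smul_eq_mul] at h1
    exact h1
  have hsq : ∀ a b c : ℝ, a ≠ 0 → 0 ≤ a * b → 0 ≤ a * c → 0 ≤ b * c := by
    intro a b c ha hb hc
    have h1 : 0 < a ^ 2 := by positivity
    have h2 : 0 ≤ a ^ 2 * (b * c) := by
      have := mul_nonneg hb hc
      nlinarith [this]
    exact (mul_nonneg_iff_of_pos_left h1).1 h2
  have hqg : ∀ g : Dual ℝ V, g q' = g qF + g (q - π q) - g p := by
    intro g; rw [hq', map_sub, map_add]
  have hXN : ∀ x ∈ span ℝ N, x - (f x / f z) • z ∈ span ℝ (N ∩ {e | f e = 0}) := by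
    intro x hx
    refine hfcut.2 _ (sub_mem hx (smul_mem _ _ hzs)) ?_
    rw [map_sub, map_smul, smul_eq_mul, div_mul_cancel₀ _ hfz.ne, sub_self]
  have main : ∀ g : Dual ℝ V, g z = 0 → Cut E' g →
      g q' ≠ 0 ∧ (0 < g q' → ∀ e ∈ E, 0 ≤ h' e * g e) := by
    intro g hgz hg
    have gN : (∀ e ∈ N ∩ {e | f e = 0}, g e = 0) → ∀ x ∈ span ℝ N, g x = 0 := by
      intro hX x hx
      have h1 : span ℝ (N ∩ {e | f e = 0}) ≤ LinearMap.ker g := span_le.2 hX
      have h2 : g (x - (f x / f z) • z) = 0 := h1 (hXN x hx)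
      rw [map_sub, map_smul, hgz, smul_zero, sub_zero] at h2
      exact h2
    have gD : (∀ e ∈ D, g e = 0) → ∀ x ∈ span ℝ D, g x = 0 := by
      intro hX x hx
      have h1 : span ℝ D ≤ LinearMap.ker g := span_le.2 hX
      exact h1 hx
    have gp : g p₁ = 0 → g p = 0 := by
      intro h1
      rcases hp₁ with h2 | h2
      · rw [h2] at h1; exact h1
      · rw [h2, map_neg, neg_eq_zero] at h1; exact h1
    have hXp : ∀ e ∈ N ∩ {e | f e = 0}, e ≠ p₁ := by
      rintro e ⟨he, -⟩ rfl
      exact hp₁h (hNh _ he)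
    have hDp : ∀ e ∈ D, e ≠ p₁ := by
      rintro e he rfl
      exact hp₁h (hDh _ he)
    by_cases hgp : g p₁ = 0
    swap
    · -- case A1
      have hz := coloop_cut hg hp₁E' hp₁nc hgp
      have h1 := gN fun e he => hz e (hXE' he) (hXp e he)
      have h2 := gD fun e he => hz e (hDE' he) (hDp e he)
      have h3 : ∀ x, g x = (h x / h p₁) * g p₁ := by
        intro x
        have h4 := h2 _ (π6 x)
        rw [map_sub, map_sub, h1 _ (π4 x), sub_zero, map_smul, smul_eq_mul] at h4
        linarith
      have h5 : g q' = - g p := by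
        rw [hqg, h1 _ hqFN, h2 _ hqD]; ring
      have h6 : g p ≠ 0 := by
        rw [h3 p]
        exact mul_ne_zero (div_ne_zero hp0 hp₁h) hgp
      refine ⟨by rw [h5]; exact neg_ne_zero.2 h6, fun h7 e he => ?_⟩
      rw [h5] at h7
      have h8 : g p < 0 := by linarith
      have h9 : g e = h e * (g p / h p) := by
        rw [h3 e, h3 p]
        field_simp
      have h10 : 0 < g p / h p := div_pos_of_neg_of_neg h8 hSP.hp
      rw [h9]
      have := mul_nonneg (hA e he) h10.le
      nlinarith [this]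
    by_cases hgD : ∀ d ∈ D, g d = 0
    swap
    · -- case A2
      push Not at hgD
      obtain ⟨d, hd, hgd⟩ := hgD
      have hz := coloop_cut hg (hDE' hd) (hDnc d hd) hgd
      have h1 := gN fun e he => hz e (hXE' he) (by
        rintro rfl
        have : e ∈ N := he.1
        exact hd.2 this)
      have hcut : Cut H0 g := by
        refine ⟨⟨d, hd.1, hgd⟩, fun x hx hgx => ?_⟩
        have hhx : h x = 0 := by
          have : span ℝ H0 ≤ LinearMap.ker h := span_le.2 fun e he => he.2
          exact this hx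
        have h2 := π5 x hhx
        have h6 : D = insert d (D \ {d}) := by
          rw [Set.insert_sdiff_singleton, Set.insert_eq_of_mem hd]
        rw [h6, Submodule.mem_span_insert] at h2
        obtain ⟨c, w, hw, hxw⟩ := h2
        have hgw : g w = 0 := by
          have : span ℝ (D \ {d}) ≤ LinearMap.ker g := by
            rw [span_le]
            rintro e ⟨he, hne⟩
            exact hz e (hDE' he) hne
          exact this hw
        have hc : c = 0 := by
          have h3 : g (x - π x) = 0 := by rw [map_sub, hgx, h1 _ (π4 x), sub_zero]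
          rw [hxw, map_add, map_smul, hgw, add_zero, smul_eq_mul] at h3
          rcases mul_eq_zero.1 h3 with h4 | h4
          · exact h4
          · exact absurd h4 hgd
        rw [hc, zero_smul, zero_add] at hxw
        have h3 : x = π x + w := by rw [← hxw]; abel
        rw [h3]
        refine add_mem (span_mono ?_ (π4 x)) (span_mono ?_ hw)
        · intro e he
          exact ⟨hNH he, h1 e (subset_span he)⟩
        · rintro e ⟨he, hne⟩
          exact ⟨he.1, hz e (hDE' he) hne⟩
      have h5 : g q' = g q := by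
        rw [hqg, h1 _ hqFN, map_sub, h1 _ hqN, gp hgp]; ring
      refine ⟨by rw [h5]; exact hSP.gen g (gp hgp) hcut, fun h7 e he => ?_⟩
      rw [h5] at h7
      have h8 := hSP.st g (gp hgp) hcut h7 e he
      by_cases hhe : h e = 0
      · by_cases heN : e ∈ N
        · rw [h1 e (subset_span heN), mul_zero]
        · have : h' e = 0 := by
            change f (π e) = 0
            rw [π2 e (subset_span ⟨⟨he, hhe⟩, heN⟩), map_zero]
          rw [this, zero_mul]
      · exact hsq _ _ _ hhe (hA e he) h8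
    · -- case B
      have h2 := gD hgD
      have hgπ : ∀ x, g x = g (π x) := by
        intro x
        have h3 := h2 _ (π6 x)
        rw [map_sub, map_sub, map_smul, hgp, smul_zero, sub_zero, sub_eq_zero] at h3
        exact h3
      have hcutX : Cut (N ∩ {e | f e = 0}) g := by
        constructor
        · obtain ⟨e, ⟨he, hhe⟩, hge⟩ := hg.1
          rcases hS e he hhe with h3 | h3 | h3
          · exact ⟨e, h3, hge⟩
          · exact absurd (hgD e h3) hge
          · exact absurd (h3 ▸ hgp) hge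
        · intro x hx hgx
          have hxN : x ∈ span ℝ N := span_mono Set.inter_subset_left hx
          have h3 := hg.2 x (span_mono hXE' hx) hgx
          have h4 : x ∈ span ℝ (((N ∩ {e | f e = 0}) ∩ {e | g e = 0}) ∪ insert p₁ D) := by
            refine span_mono ?_ h3
            rintro e ⟨⟨he, hhe⟩, hge⟩
            rcases hS e he hhe with h5 | h5 | h5
            · exact Or.inl ⟨h5, hge⟩
            · exact Or.inr (Or.inr h5)
            · exact Or.inr (Or.inl h5)
          rw [span_union] at h4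
          obtain ⟨a, ha, b, hb, hab⟩ := mem_sup.1 h4
          have haN : a ∈ span ℝ N :=
            span_mono (fun e he => he.1.1) ha
          have hbk : π b = 0 := by
            have : span ℝ (insert p₁ D) ≤ LinearMap.ker π := by
              rw [span_le]
              rintro e (rfl | he)
              · exact hπp₁
              · exact π2 e (subset_span he)
            exact this hb
          have h5 : x = a := by
            rw [← π1 x hxN, ← hab, map_add, hbk, add_zero, π1 a haN]
          rw [h5]; exact ha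
      have hcutN : Cut N g := cut_up hzN hfcut hfz.ne hgz hcutX
      have h5 : g q' = g qF := by
        rw [hqg, h2 _ hqD, gp hgp]; ring
      have h6 : g qF = g (π q) := by
        rw [hqF, map_sub, map_smul, hgz, smul_zero, sub_zero]
      refine ⟨by rw [h5]; exact hfSP.gen g hgz hcutX, fun h7 e he => ?_⟩
      rw [h5] at h7
      by_cases hhe : h e = 0
      · by_cases heN : e ∈ N
        · have h8 := hfSP.st g hgz hcutX h7 e heN
          change 0 ≤ f (π e) * g e
          rw [π1 e (subset_span heN)]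
          exact h8
        · have : h' e = 0 := by
            change f (π e) = 0
            rw [π2 e (subset_span ⟨⟨he, hhe⟩, heN⟩), map_zero]
          rw [this, zero_mul]
      · have h8 := hcl e he g hcutN (by rw [← h6]; exact h7)
        rw [map_smul, smul_eq_mul, ← hgπ] at h8
        exact hsq _ _ _ hhe (hA e he) h8
  refine ⟨z, h', q', ⟨?_, ⟨?_, ?_⟩, ?_, ?_, ?_, ?_⟩, ?_⟩
  · -- mem
    rcases hzN with h1 | h1
    · exact Or.inl (hNH h1).1
    · exact Or.inr (hNH h1).1
  · obtain ⟨e, he, hfe⟩ := hfcut.1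
    refine ⟨e, (hNH he).1, ?_⟩
    change f (π e) ≠ 0
    rw [π1 e (subset_span he)]
    exact hfe
  · intro x _ hx
    have h1 : f (π x) = 0 := hx
    have h2 := hfcut.2 (π x) (π4 x) h1
    have h3 : x = π x + (x - π x - (h x / h p₁) • p₁) + (h x / h p₁) • p₁ := by abel
    rw [h3]
    exact add_mem (add_mem (span_mono hXE' h2) (span_mono hDE' (π6 x)))
      (smul_mem _ _ (subset_span hp₁E'))
  · change f (π z) < 0
    rw [π1 z hzs]; exact hfz
  · change f (π q') = 0
    have h1 : π q' = qF := by
      rw [hq', map_sub, map_add, π1 qF hqFN, π2 _ hqD, π3]; simp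
    rw [h1, hqF, map_sub, map_smul, smul_eq_mul, div_mul_cancel₀ _ hfz.ne, sub_self]
  · intro g hgz hg
    exact (main g hgz hg).1
  · intro g hgz hg hgq
    exact (main g hgz hg).2 hgq
  · have h1 : span ℝ (NC E') ≤ span ℝ (N ∩ {e | f e = 0}) := by
      refine span_mono ?_
      intro e he
      rcases hS e he.1.1 he.1.2 with h3 | h3 | h3
      · exact h3
      · exact absurd he (hDnc e h3)
      · rw [h3] at he; exact absurd he hp₁nc
    apply Submodule.finrank_lt_finrank_of_lt
    refine lt_of_le_of_ne (h1.trans (span_mono Set.inter_subset_left)) ?_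
    intro heq
    obtain ⟨e, he, hfe⟩ := hfcut.1
    have h2 : e ∈ span ℝ (NC E') := by rw [heq]; exact subset_span he
    have h3 : span ℝ (N ∩ {e | f e = 0}) ≤ LinearMap.ker f := span_le.2 fun a ha => ha.2
    exact hfe (h3 (h1 h2))

end WW39
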