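import Mathlib

/-!
MP_a50277_co (Wiseman-Wilson conjecture, frozen S10569): definitions and statements of the pieces.
Project WW, poster helper39.

Everything on `V` is about the matroid of a finite set of vectors of a real vector space.
-/

set_option autoImplicit false

open Module Submodule

namespace WW39

section defs
variable {V : Type} [AddCommGroup V] [Module ℝ V]

/-- The matroid of `Q` is connected: there is no nontrivial separation. -/
def Conn (Q : Set V) : Prop :=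
  ∀ A ⊆ Q, Disjoint (span ℝ A) (span ℝ (Q \ A)) → A = ∅ ∨ A = Q

/-- The functional `f` cuts out a hyperplane of `span Q` which is spanned by elements of `Q`. -/
def Cut (Q : Set V) (f : Dual ℝ V) : Prop :=
  (∃ e ∈ Q, f e ≠ 0) ∧ ∀ x ∈ span ℝ Q, f x = 0 → x ∈ span ℝ (Q ∩ {e | f e = 0})

/-- `q` is generic: not on a hyperplane spanned by elements of `Q` -/
def Gen (Q : Set V) (q : V) : Prop := ∀ f, Cut Q f → f q ≠ 0

/-- `x` is in the closure of the chamber of `q` (used for `x ∈ span Q`) -/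
def InCl (Q : Set V) (q x : V) : Prop := ∀ f, Cut Q f → 0 < f q → 0 ≤ f x

/-- no two skew circuits -/
def NS (E : Set V) : Prop := ∀ A ⊆ E, ∀ B ⊆ E, Disjoint (span ℝ A) (span ℝ B) →
  LinearIndepOn ℝ id A ∨ LinearIndepOn ℝ id B

/-- the elements of `E` which are not coloops of `E` -/
def NC (E : Set V) : Set V := {e | e ∈ E ∧ e ∈ span ℝ (E \ {e})}

/-- Steinberg pair: the hyperplane `h = 0` is spanned by elements of `E`, `h p < 0`, and `q` is a
generic point of it; for every hyperplane `G` of `h = 0` spanned by elements of `E`, every `e ∈ E`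
satisfies `h e * g e ≥ 0` where `g` vanishes on `G` and `p`, `g q > 0`. -/
structure SP (E : Set V) (p : V) (h : Dual ℝ V) (q : V) : Prop where
  mem : p ∈ E ∨ -p ∈ E
  cut : Cut E h
  hp : h p < 0
  hq : h q = 0
  gen : ∀ g : Dual ℝ V, g p = 0 → Cut (E ∩ {e | h e = 0}) g → g q ≠ 0
  st : ∀ g : Dual ℝ V, g p = 0 → Cut (E ∩ {e | h e = 0}) g → 0 < g q → ∀ e ∈ E, 0 ≤ h e * g e

end defs

/-! ### Matroid / convexity pieces -/

/-- NC1: the coloops split off. -/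
def S_NC1 : Prop := ∀ (V : Type) [AddCommGroup V] [Module ℝ V] (A : Set V), A.Finite →
  Disjoint (span ℝ (NC A)) (span ℝ (A \ NC A)) ∧ LinearIndepOn ℝ id (A \ NC A) ∧
  ∀ e ∈ NC A, e ∈ span ℝ (NC A \ {e})

/-- NC2: without skew circuits the part without coloops is connected. (from NC1) -/
def S_NC2 : Prop := ∀ (V : Type) [AddCommGroup V] [Module ℝ V] (E A : Set V), E.Finite → NS E →
  A ⊆ E → Conn (NC A)

/-- TUTTE: for a connected `Q` and `z ∈ Q`, deletion or contraction of `z` is connected. -/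
def S_TUTTE : Prop := ∀ (V : Type) [AddCommGroup V] [Module ℝ V] (Q : Set V) (z : V), Q.Finite →
  Conn Q → z ∈ Q → Conn (Q \ {z}) ∨
    ∀ C ⊆ Q \ {z}, span ℝ (insert z C) ⊓ span ℝ (insert z ((Q \ {z}) \ C)) ≤ span ℝ {z} →
      C = ∅ ∨ C = Q \ {z}

/-- EXZ: not all elements lie in the closure of the chamber or its negative. -/
def S_EXZ : Prop := ∀ (V : Type) [AddCommGroup V] [Module ℝ V] (Q : Set V) (q : V), Q.Finite →
  Conn Q → q ∈ span ℝ Q → Gen Q q → 2 ≤ finrank ℝ (span ℝ Q) →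
  ∃ z ∈ Q, ¬ InCl Q q z ∧ ¬ InCl Q q (-z)

/-- GP: some spanned hyperplane meets the closure of the chamber only in `0`.
(from TUTTE and EXZ, induction on the number of elements) -/
def S_GP : Prop := ∀ (V : Type) [AddCommGroup V] [Module ℝ V] (Q : Set V) (q : V), Q.Finite →
  Conn Q → q ∈ span ℝ Q → Gen Q q → span ℝ Q ≠ ⊥ →
  ∃ f, Cut Q f ∧ 0 < f q ∧ ∀ x ∈ span ℝ Q, InCl Q q x → f x = 0 → x = 0

/-- FIRST: in a class `K` of functionals closed under adding positive multiples, the functional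
nearest to `p` gives a Steinberg pair. -/
def S_FIRST : Prop := ∀ (V : Type) [AddCommGroup V] [Module ℝ V] (E : Set V) (p q : V)
  (K : Dual ℝ V → Prop), E.Finite → (p ∈ E ∨ -p ∈ E) → q ∈ span ℝ E → Gen E q →
  (∀ f g : Dual ℝ V, ∀ a b : ℝ, 0 < a → 0 < b → K f → Cut E g → 0 < g q → Cut E (a • f + b • g) →
    K (a • f + b • g)) →
  (∃ f, K f ∧ Cut E f ∧ 0 < f q ∧ f p < 0) →
  ∃ f, K f ∧ 0 < f q ∧ SP E p f (q - (f q / f p) • p)

/-- START: there is a Steinberg pair (from FIRST with `K = True`) -/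
def S_START : Prop := ∀ (V : Type) [AddCommGroup V] [Module ℝ V] [FiniteDimensional ℝ V]
  (E : Set V), E.Finite → span ℝ E = ⊤ → (∃ e ∈ E, e ≠ 0) → ∃ p h q, SP E p h q

/-- STEP: the recursion -/
def S_STEP : Prop := ∀ (V : Type) [AddCommGroup V] [Module ℝ V] [FiniteDimensional ℝ V]
  (E : Set V), E.Finite → span ℝ E = ⊤ → (∀ e ∈ E, e ≠ 0) →
  (∀ e ∈ E, ∀ e' ∈ E, ∀ c : ℝ, e' = c • e → e' = e) → NS E →
  ∀ (p : V) (h : Dual ℝ V) (q : V), SP E p h q → (NC (E ∩ {e | h e = 0})).Nonempty →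
  ∃ (p' : V) (h' : Dual ℝ V) (q' : V), SP E p' h' q' ∧
    finrank ℝ (span ℝ (NC (E ∩ {e | h' e = 0}))) < finrank ℝ (span ℝ (NC (E ∩ {e | h e = 0})))

/-- T: a simple real matroid without two skew circuits has an independent hyperplane
(from START, STEP, NC1) -/
def S_T : Prop := ∀ (V : Type) [AddCommGroup V] [Module ℝ V] [FiniteDimensional ℝ V]
  (E : Set V), E.Finite → span ℝ E = ⊤ → (∀ e ∈ E, e ≠ 0) →
  (∀ e ∈ E, ∀ e' ∈ E, ∀ c : ℝ, e' = c • e → e' = e) → NS E → E.Nonempty →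
  ∃ f : Dual ℝ V, (∃ e ∈ E, f e ≠ 0) ∧ LinearIndepOn ℝ id (E ∩ {e | f e = 0}) ∧
    ∀ x, f x = 0 → x ∈ span ℝ (E ∩ {e | f e = 0})

/-! ### Veronese pieces -/

open MvPolynomial in
/-- abbreviation -/
noncomputable abbrev Pol := MvPolynomial (Fin 3) ℝ

/-- determinant of three vectors -/
def det3 (x y z : Fin 3 → ℝ) : ℝ :=
  x 0 * (y 1 * z 2 - y 2 * z 1) - x 1 * (y 0 * z 2 - y 2 * z 0) + x 2 * (y 0 * z 1 - y 1 * z 0)

/-- no two points of `C` are proportional -/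
def Simp (C : Set (Fin 3 → ℝ)) : Prop :=
  (∀ p ∈ C, p ≠ 0) ∧ ∀ p ∈ C, ∀ p' ∈ C, ∀ c : ℝ, p' = c • p → p' = p

/-- W: `G(x) H(y) - G(y) H(x) = det (x, y, w(x,y))` -/
def S_W : Prop := ∀ (n : ℕ) (G H : Pol), G.IsHomogeneous (n + 1) → H.IsHomogeneous (n + 1) →
  ∃ (N : ℕ) (A B : Fin N → Pol) (c : Fin N → Fin 3 → ℝ),
    (∀ k, (A k).IsHomogeneous n) ∧ (∀ k, (B k).IsHomogeneous n) ∧
    ∀ x y : Fin 3 → ℝ, MvPolynomial.eval x G * MvPolynomial.eval y H
      - MvPolynomial.eval y G * MvPolynomial.eval x H =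
      ∑ k, MvPolynomial.eval x (A k) * MvPolynomial.eval y (B k) * det3 x y (c k)

/-- DIV: a vector field `W` with `det (p, y, W y) = 0` is `a p + b y`. -/
def S_DIV : Prop := ∀ (n : ℕ) (p : Fin 3 → ℝ) (W : Fin 3 → Pol), p ≠ 0 →
  (∀ j, (W j).IsHomogeneous (n + 1)) →
  (∀ y : Fin 3 → ℝ, det3 p y (fun j => MvPolynomial.eval y (W j)) = 0) →
  ∃ a b : Pol, a.IsHomogeneous (n + 1) ∧ b.IsHomogeneous n ∧ ∀ (y : Fin 3 → ℝ) (j : Fin 3),
    MvPolynomial.eval y (W j) = MvPolynomial.eval y a * p j + MvPolynomial.eval y b * y j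

/-- VER: two dependencies of degree `n + 1` with disjoint supports cannot be separated in degree
`n + 2`. (from W and DIV) -/
def S_VER : Prop := ∀ (n : ℕ) (C₁ C₂ : Finset (Fin 3 → ℝ)) (l m : (Fin 3 → ℝ) → ℝ)
  (p₀ y₀ : Fin 3 → ℝ) (G H : Pol),
  Disjoint C₁ C₂ → Simp (↑(C₁ ∪ C₂) : Set (Fin 3 → ℝ)) →
  (∀ F : Pol, F.IsHomogeneous (n + 1) → ∑ p ∈ C₁, l p * MvPolynomial.eval p F = 0) →
  (∀ F : Pol, F.IsHomogeneous (n + 1) → ∑ y ∈ C₂, m y * MvPolynomial.eval y F = 0) →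
  p₀ ∈ C₁ → y₀ ∈ C₂ → l p₀ ≠ 0 → m y₀ ≠ 0 →
  G.IsHomogeneous (n + 2) → H.IsHomogeneous (n + 2) →
  MvPolynomial.eval p₀ G = 1 → (∀ z ∈ C₁ ∪ C₂, z ≠ p₀ → MvPolynomial.eval z G = 0) →
  MvPolynomial.eval y₀ H = 1 → (∀ z ∈ C₁ ∪ C₂, z ≠ y₀ → MvPolynomial.eval z H = 0) → False

/-- evaluation at `p` on the forms of degree `d` -/
noncomputable def ver (d : ℕ) (p : Fin 3 → ℝ) :
    Dual ℝ (MvPolynomial.homogeneousSubmodule (Fin 3) ℝ d) :=
  (MvPolynomial.aeval (R := ℝ) p).toLinearMap ∘ₗ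
    (MvPolynomial.homogeneousSubmodule (Fin 3) ℝ d).subtype

/-- NSV: the Veronese vectors have no two skew circuits. (from VER) -/
def S_NSV : Prop := ∀ (n : ℕ) (C : Set (Fin 3 → ℝ)), C.Finite → Simp C → NS (ver (n + 1) '' C)

/-- INJ: the Veronese vectors of nonproportional points are nonproportional -/
def S_INJ : Prop := ∀ (n : ℕ) (p p' : Fin 3 → ℝ) (c : ℝ), p ≠ 0 → p' ≠ 0 →
  ver (n + 1) p' = c • ver (n + 1) p → ∃ c' : ℝ, p' = c' • p

/-- DIM -/
def S_DIM : Prop := ∀ d : ℕ,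
  FiniteDimensional ℝ (MvPolynomial.homogeneousSubmodule (Fin 3) ℝ d) ∧
  finrank ℝ (MvPolynomial.homogeneousSubmodule (Fin 3) ℝ d) = (d + 1) * (d + 2) / 2

/-- FIN: the frozen statement S10569 (from T, NSV, INJ, DIM) -/
def S_FIN : Prop := ∀ d : ℕ, 0 < d → ∀ P : Finset (Projectivization ℝ (Fin 3 → ℝ)),
      (∃ f : MvPolynomial (Fin 3) ℝ, f.IsHomogeneous d ∧ f ≠ 0 ∧
          ∀ p ∈ P, MvPolynomial.eval p.rep f = 0) ∨
      (∃ f : MvPolynomial (Fin 3) ℝ, f.IsHomogeneous d ∧ f ≠ 0 ∧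
          (P.filter (fun p => MvPolynomial.eval p.rep f = 0)).card = (d + 1) * (d + 2) / 2 - 1 ∧
          ∀ g : MvPolynomial (Fin 3) ℝ, g.IsHomogeneous d →
            (∀ p ∈ P, MvPolynomial.eval p.rep f = 0 → MvPolynomial.eval p.rep g = 0) →
            ∃ c : ℝ, g = c • f)

end WW39
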